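import Mathlib

/-!
A family of pairwise disjoint non-small sets on a well-ordered set whose proper initial
segments are smaller than the whole set.  A set `Z` is *small* if there is a function that is
regressive on `Z` and countable-to-one on `Z`.
-/

namespace Q309.Sel

open Cardinal Ordinal Set

variable {α : Type}

/-- `Z` carries a regressive function with all fibres of size at most `l`. -/
def SmallL (r : α → α → Prop) (l : Cardinal.{0}) (Z : Set α) : Prop :=
  ∃ f : α → α, (∀ z ∈ Z, r (f z) z) ∧ ∀ w, #{z : α | z ∈ Z ∧ f z = w} ≤ l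

theorem card_iUnion_le {ι α : Type} {l : Cardinal.{0}} (hl : ℵ₀ ≤ l) (hι : #ι ≤ l)
    (s : ι → Set α) (hs : ∀ i, #(s i) ≤ l) : #(⋃ i, s i) ≤ l := by
  calc #(⋃ i, s i) ≤ Cardinal.sum (fun i => #(s i)) := mk_iUnion_le_sum_mk
    _ ≤ Cardinal.sum (fun _ : ι => l) := Cardinal.sum_le_sum _ _ hs
    _ = #ι * l := by simp
    _ ≤ l * l := by gcongr
    _ = l := Cardinal.mul_eq_self hl

theorem card_union_le {α : Type} {l : Cardinal.{0}} (hl : ℵ₀ ≤ l) (s t : Set α)
    (hs : #s ≤ l) (ht : #t ≤ l) : #(s ∪ t : Set α) ≤ l :=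
  calc #(s ∪ t : Set α) ≤ #s + #t := mk_union_le s t
    _ ≤ l + l := by gcongr
    _ = l := Cardinal.add_eq_self hl

theorem SmallL.mono {r : α → α → Prop} {l : Cardinal.{0}} {Z Z' : Set α} (h : SmallL r l Z)
    (hZ : Z' ⊆ Z) : SmallL r l Z' := by
  obtain ⟨f, h1, h2⟩ := h
  refine ⟨f, fun z hz => h1 z (hZ hz), fun w => le_trans (mk_le_mk_of_subset ?_) (h2 w)⟩
  rintro z ⟨hz, hw⟩
  exact ⟨hZ hz, hw⟩

theorem SmallL.iUnion {r : α → α → Prop} {l : Cardinal.{0}} (hl : ℵ₀ ≤ l) {ι : Type}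
    (hι : #ι ≤ l) {A : ι → Set α} (h : ∀ i, SmallL r l (A i)) : SmallL r l (⋃ i, A i) := by
  classical
  choose f h1 h2 using h
  by_cases hne : Nonempty ι
  · obtain ⟨i0⟩ := hne
    let ix : α → ι := fun z => if h : ∃ i, z ∈ A i then h.choose else i0
    have hix : ∀ z, z ∈ (⋃ i, A i) → z ∈ A (ix z) := by
      intro z hz
      have h : ∃ i, z ∈ A i := mem_iUnion.1 hz
      simp only [ix, dif_pos h]
      exact h.choose_spec
    refine ⟨fun z => f (ix z) z, fun z hz => h1 _ z (hix z hz), fun w => ?_⟩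
    refine le_trans (mk_le_mk_of_subset (t := ⋃ i, {z : α | z ∈ A i ∧ f i z = w}) ?_)
      (card_iUnion_le hl hι _ (fun i => h2 i w))
    rintro z ⟨hz, hw⟩
    exact mem_iUnion.2 ⟨ix z, hix z hz, hw⟩
  · have : (⋃ i, A i) = ∅ := by
      rw [iUnion_eq_empty]
      intro i
      exact absurd ⟨i⟩ hne
    rw [this]
    refine ⟨id, fun z hz => absurd hz (notMem_empty z), fun w => ?_⟩
    have : {z : α | z ∈ (∅ : Set α) ∧ id z = w} = ∅ := by
      ext z; simp
    rw [this]
    simp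

/-- Iterating a regressive function with fibres of size at most `l` from an exceptional set of
size at most `l` covers only `l` points. -/
theorem not_small {r : α → α → Prop} [IsWellOrder α r] {l : Cardinal.{0}} (hl : ℵ₀ ≤ l)
    {W Y Z : Set α} (hW : ∀ w ∈ W, ∀ u, r u w → u ∈ W) (hcW : ¬ #W ≤ l) (hY : #Y ≤ l)
    (hZ : W \ Y ⊆ Z) : ¬ SmallL r l Z := by
  rintro ⟨f, h1, h2⟩
  let Yn : ℕ → Set α := fun n => Nat.rec Y (fun _ S => S ∪ {z : α | z ∈ Z ∧ f z ∈ S}) n
  have hYs : ∀ n, Yn (n + 1) = Yn n ∪ {z : α | z ∈ Z ∧ f z ∈ Yn n} := fun n => rfl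
  have hc : ∀ n, #(↥(Yn n)) ≤ l := by
    intro n
    induction n with
    | zero => exact hY
    | succ n ih =>
      rw [hYs]
      refine card_union_le hl _ _ ih ?_
      have : {z : α | z ∈ Z ∧ f z ∈ Yn n} =
          ⋃ w : Yn n, {z : α | z ∈ Z ∧ f z = w.1} := by
        ext z
        simp only [mem_ofPred_eq, mem_iUnion, Subtype.exists, exists_prop]
        constructor
        · rintro ⟨a, b⟩
          exact ⟨f z, b, a, rfl⟩
        · rintro ⟨w, hw, a, b⟩
          exact ⟨a, b ▸ hw⟩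
      rw [this]
      exact card_iUnion_le hl ih _ (fun w => h2 w.1)
  have hcov : ∀ w, w ∈ W → ∃ n, w ∈ Yn n := by
    intro w
    induction w using (IsWellFounded.wf (r := r)).induction with
    | _ w ih =>
      intro hw
      by_cases hwY : w ∈ Y
      · exact ⟨0, hwY⟩
      · have hwZ : w ∈ Z := hZ ⟨hw, hwY⟩
        obtain ⟨n, hn⟩ := ih (f w) (h1 w hwZ) (hW w hw _ (h1 w hwZ))
        exact ⟨n + 1, Or.inr ⟨hwZ, hn⟩⟩
  apply hcW
  refine le_trans (mk_le_mk_of_subset (t := ⋃ n, Yn n) ?_)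
    (card_iUnion_le hl (by rw [mk_nat]; exact hl) _ hc)
  intro w hw
  exact mem_iUnion.2 (hcov w hw)

/-- The Ulam-matrix argument at one level. -/
theorem level {r : α → α → Prop} [IsWellOrder α r] (hr : (#α).ord = type r)
    {l : Cardinal.{0}} (hl : ℵ₀ ≤ l) (hla : l < #α) :
    ∃ (V : Set α) (E : α → Set α), l < #V ∧ (∀ v ∈ V, #{u // r u v} = l) ∧
      (∀ v ∈ V, E v ⊆ {w | #{u // r u w} = l}) ∧ (∀ v ∈ V, ¬ SmallL r l (E v)) ∧
      V.PairwiseDisjoint E := by
  classical
  set c : α → Cardinal.{0} := fun w => #{u // r u w} with hc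
  have htr : ∀ {a b d : α}, r a b → r b d → r a d := fun h1 h2 => _root_.trans_of r h1 h2
  have hmono : ∀ u w, r u w → c u ≤ c w := by
    intro u w huw
    exact mk_le_mk_of_subset (s := {x | r x u}) (t := {x | r x w}) (fun x hx => htr hx huw)
  set W : Set α := {w | c w ≤ l} with hWdef
  set D : Set α := {w | c w < l} with hDdef
  set L : Set α := {w | c w = l} with hLdef
  have hWin : ∀ w ∈ W, ∀ u, r u w → u ∈ W := fun w hw u hu => le_trans (hmono u w hu) hw
  have hWc : ¬ #W ≤ l := by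
    intro hWl
    have hne : ∃ w, w ∉ W := by
      by_contra hcon
      push Not at hcon
      have : W = Set.univ := eq_univ_of_forall hcon
      rw [this, mk_univ] at hWl
      exact absurd hla (not_lt.2 hWl)
    have wf := (IsWellFounded.wf (r := r))
    let w0 := wf.min {w | w ∉ W} hne
    have h0 : w0 ∉ W := wf.min_mem {w | w ∉ W} hne
    apply h0
    have hsub : {u | r u w0} ⊆ W := by
      intro u hu
      by_contra hcon
      exact wf.not_lt_min {w | w ∉ W} hcon hu
    exact le_trans (mk_le_mk_of_subset hsub) hWl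
  have hDc : #D ≤ l := by
    have hlt : l.ord < type r := by
      rw [← hr]
      exact Cardinal.ord_lt_ord.2 hla
    obtain ⟨w0, hw0⟩ := Ordinal.typein_surj r hlt
    have hcw0 : c w0 = l := by
      have := Ordinal.card_typein (r := r) w0
      rw [hw0, Cardinal.card_ord] at this
      exact this.symm
    have hsub : D ⊆ {u | r u w0} := by
      intro w hw
      have h1 : (typein r w).card < l := by
        rw [Ordinal.card_typein]; exact hw
      have h2 : typein r w < l.ord := Cardinal.lt_ord.2 h1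
      rw [← hw0] at h2
      exact (Ordinal.typein_lt_typein r).1 h2
    exact le_trans (mk_le_mk_of_subset hsub) hcw0.le
  have hWDL : W = D ∪ L := by
    ext w
    simp only [hWdef, hDdef, hLdef, mem_ofPred_eq, mem_union]
    exact le_iff_lt_or_eq
  have hLc : ¬ #L ≤ l := by
    intro h
    apply hWc
    rw [hWDL]
    exact card_union_le hl _ _ hDc h
  -- the injections
  have he : ∀ w : α, ∃ e : α → l.out, w ∈ L → InjOn e {u | r u w} := by
    intro w
    by_cases hw : w ∈ L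
    · have : #{u // r u w} = #(l.out) := by rw [mk_out]; exact hw
      obtain ⟨φ⟩ := Cardinal.eq.1 this
      have hne : Nonempty l.out := by
        rw [← mk_ne_zero_iff, mk_out]
        exact (lt_of_lt_of_le aleph0_pos hl).ne'
      obtain ⟨i0⟩ := hne
      refine ⟨fun u => if h : r u w then φ ⟨u, h⟩ else i0, fun _ => ?_⟩
      intro u hu u' hu' h
      simp only [mem_ofPred_eq] at hu hu'
      simp only [dif_pos hu, dif_pos hu'] at h
      exact congrArg Subtype.val (φ.injective h)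
    · have hne : Nonempty l.out := by
        rw [← mk_ne_zero_iff, mk_out]
        exact (lt_of_lt_of_le aleph0_pos hl).ne'
      obtain ⟨i0⟩ := hne
      exact ⟨fun _ => i0, fun h => absurd h hw⟩
  choose e he using he
  let A : l.out → α → Set α := fun i v => {w | w ∈ L ∧ r v w ∧ e w v = i}
  have hA : ∀ v, v ∈ L → ∃ i, ¬ SmallL r l (A i v) := by
    intro v hv
    by_contra hcon
    push Not at hcon
    have hU : SmallL r l (⋃ i, A i v) := SmallL.iUnion hl (by rw [mk_out]) hcon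
    have hYc : #(D ∪ ({w | r w v} ∪ {v}) : Set α) ≤ l := by
      refine card_union_le hl _ _ hDc (card_union_le hl _ _ (le_of_eq hv) ?_)
      rw [mk_singleton]
      exact le_trans one_le_aleph0 hl
    refine not_small hl hWin hWc hYc ?_ hU
    rintro w ⟨hw, hwY⟩
    simp only [mem_union, mem_ofPred_eq, mem_singleton_iff, not_or] at hwY
    obtain ⟨h1, h2, h3⟩ := hwY
    have hwL : w ∈ L := by
      rw [hWDL] at hw
      exact hw.resolve_left h1
    have hvw : r v w := by
      rcases trichotomous_of r v w with h | h | h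
      · exact h
      · exact absurd h.symm h3
      · exact absurd h h2
    exact mem_iUnion.2 ⟨e w v, hwL, hvw, rfl⟩
  have hne : Nonempty l.out := by
    rw [← mk_ne_zero_iff, mk_out]
    exact (lt_of_lt_of_le aleph0_pos hl).ne'
  have hA' : ∀ v, ∃ i, v ∈ L → ¬ SmallL r l (A i v) := by
    intro v
    by_cases hv : v ∈ L
    · obtain ⟨i, hi⟩ := hA v hv
      exact ⟨i, fun _ => hi⟩
    · exact ⟨hne.some, fun h => absurd h hv⟩
  choose ix hix using hA'
  have hpig : ∃ i, ¬ #{v : α | v ∈ L ∧ ix v = i} ≤ l := by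
    by_contra hcon
    push Not at hcon
    apply hLc
    refine le_trans (mk_le_mk_of_subset (t := ⋃ i, {v : α | v ∈ L ∧ ix v = i}) ?_)
      (card_iUnion_le hl (by rw [mk_out]) _ hcon)
    intro v hv
    exact mem_iUnion.2 ⟨ix v, hv, rfl⟩
  obtain ⟨i, hi⟩ := hpig
  refine ⟨{v : α | v ∈ L ∧ ix v = i}, A i, not_le.1 hi, fun v hv => hv.1,
    fun v _ w hw => hw.1, ?_, ?_⟩
  · rintro v ⟨hv, hvi⟩
    rw [← hvi]
    exact hix v hv
  · rintro v hv v' hv' hne'
    rw [Function.onFun, Set.disjoint_left]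
    rintro w ⟨hw, h1, h2⟩ ⟨_, h3, h4⟩
    exact hne' (he w hw h1 h3 (h2.trans h4.symm))

/-- `Z` carries a regressive countable-to-one function. -/
def SmallC (r : α → α → Prop) (Z : Set α) : Prop :=
  ∃ f : α → α, (∀ z ∈ Z, r (f z) z) ∧ ∀ w, {z : α | z ∈ Z ∧ f z = w}.Countable

theorem SmallC.smallL {r : α → α → Prop} {l : Cardinal.{0}} (hl : ℵ₀ ≤ l) {Z : Set α}
    (h : SmallC r Z) : SmallL r l Z := by
  obtain ⟨f, h1, h2⟩ := h
  exact ⟨f, h1, fun w => le_trans (le_aleph0_iff_set_countable.2 (h2 w)) hl⟩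

theorem SmallC.iUnion {r : α → α → Prop} {A : ℕ → Set α} (h : ∀ i, SmallC r (A i)) :
    SmallC r (⋃ i, A i) := by
  have h' : ∀ i, SmallL r ℵ₀ (A i) := fun i => (h i).smallL le_rfl
  obtain ⟨f, h1, h2⟩ := SmallL.iUnion (r := r) le_rfl (by rw [mk_nat]) h'
  exact ⟨f, h1, fun w => le_aleph0_iff_set_countable.1 (h2 w)⟩

theorem SmallC.mono {r : α → α → Prop} {Z Z' : Set α} (h : SmallC r Z)
    (hZ : Z' ⊆ Z) : SmallC r Z' := by
  obtain ⟨f, h1, h2⟩ := h
  refine ⟨f, fun z hz => h1 z (hZ hz), fun w => (h2 w).mono ?_⟩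
  rintro z ⟨hz, hw⟩
  exact ⟨hZ hz, hw⟩

/-- On every uncountable type there are a well-order and as many pairwise disjoint non-small sets
as there are points. -/
theorem exists_family (α : Type) (hα : ℵ₀ < #α) :
    ∃ (r : α → α → Prop) (_ : IsWellOrder α r) (V : Set α) (E : α → Set α),
      #α ≤ #V ∧ V.PairwiseDisjoint E ∧ ∀ v ∈ V, ¬ SmallC r (E v) := by
  classical
  obtain ⟨r, hwo, hr⟩ := Cardinal.exists_ord_eq α
  have H : ∀ l : Cardinal.{0}, ∃ (V : Set α) (E : α → Set α), ℵ₀ ≤ l → l < #α →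
      (l < #V ∧ (∀ v ∈ V, #{u // r u v} = l) ∧
      (∀ v ∈ V, E v ⊆ {w | #{u // r u w} = l}) ∧ (∀ v ∈ V, ¬ SmallL r l (E v)) ∧
      V.PairwiseDisjoint E) := by
    intro l
    by_cases h : ℵ₀ ≤ l ∧ l < #α
    · obtain ⟨V, E, h1⟩ := level (r := r) hr h.1 h.2
      exact ⟨V, E, fun _ _ => h1⟩
    · exact ⟨∅, fun _ => ∅, fun h1 h2 => absurd ⟨h1, h2⟩ h⟩
  choose V E hVE using H
  set c : α → Cardinal.{0} := fun w => #{u // r u w} with hc
  have hcl : ∀ w, c w < #α := by
    intro w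
    have := Cardinal.card_typein_lt (r := r) w hr
    rwa [Ordinal.card_typein] at this
  refine ⟨r, hwo, {v | ℵ₀ ≤ c v ∧ v ∈ V (c v)}, fun v => E (c v) v, ?_, ?_, ?_⟩
  · by_contra hcon
    have hlt := not_le.1 hcon
    have hl0 : ℵ₀ ≤ max (#{v : α | ℵ₀ ≤ c v ∧ v ∈ V (c v)}) ℵ₀ := le_max_right _ _
    have hl1 : max (#{v : α | ℵ₀ ≤ c v ∧ v ∈ V (c v)}) ℵ₀ < #α := max_lt hlt hα
    obtain ⟨h1, h2, -⟩ := hVE _ hl0 hl1
    have hsub : V (max (#{v : α | ℵ₀ ≤ c v ∧ v ∈ V (c v)}) ℵ₀) ⊆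
        {v : α | ℵ₀ ≤ c v ∧ v ∈ V (c v)} := by
      intro v hv
      have h3 := h2 v hv
      refine ⟨?_, ?_⟩
      · show ℵ₀ ≤ #{u // r u v}
        rw [h3]; exact hl0
      · show v ∈ V (#{u // r u v})
        rw [h3]; exact hv
    have := mk_le_mk_of_subset hsub
    exact absurd (lt_of_lt_of_le h1 (le_trans this (le_max_left _ ℵ₀))) (lt_irrefl _)
  · rintro v ⟨hv0, hv⟩ v' ⟨hv0', hv'⟩ hne
    by_cases hcc : c v = c v'
    · have h5 := (hVE (c v) hv0 (hcl v)).2.2.2.2
      rw [← hcc] at hv'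
      have := h5 hv hv' hne
      simp only [Function.onFun] at this ⊢
      rw [← hcc]
      exact this
    · rw [Function.onFun, Set.disjoint_left]
      intro w hw hw'
      have h1 := (hVE (c v) hv0 (hcl v)).2.2.1 v hv hw
      have h2 := (hVE (c v') hv0' (hcl v')).2.2.1 v' hv' hw'
      exact hcc (h1.symm.trans h2)
  · rintro v ⟨hv0, hv⟩ hs
    exact (hVE (c v) hv0 (hcl v)).2.2.2.1 v hv (hs.smallL hv0)

end Q309.Sel
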